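import Mathlib

set_option autoImplicit false

namespace Pool.Agent.H56.KR

open Complex Complex.HadamardThreeLines

/-- The bilinear form of a matrix. -/
noncomputable def bil {n : ℕ} (R : Fin n → Fin n → ℂ) (x y : EuclideanSpace ℂ (Fin n)) : ℂ :=
  ∑ i, ∑ j, y i * R i j * x j

/-- **Heinz interpolation** for a matrix and a positive diagonal matrix. -/
theorem heinz {n : ℕ} (d : Fin n → ℝ) (hd : ∀ i, 0 < d i) (R : Fin n → Fin n → ℂ) {a b : ℝ}
    (ha0 : 0 ≤ a) (hb0 : 0 ≤ b)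
    (ha : ∀ x y : EuclideanSpace ℂ (Fin n), ‖bil R x y‖ ≤ a * ‖x‖ * ‖y‖)
    (hb : ∀ x y : EuclideanSpace ℂ (Fin n),
      ‖bil (fun i j => (d i : ℂ) * R i j * (d j : ℂ)⁻¹) x y‖ ≤ b * ‖x‖ * ‖y‖)
    {θ : ℝ} (h0 : 0 ≤ θ) (h1 : θ ≤ 1) (x y : EuclideanSpace ℂ (Fin n)) :
    ‖bil (fun i j => ((d i ^ θ : ℝ) : ℂ) * R i j * ((d j ^ θ : ℝ) : ℂ)⁻¹) x y‖ ≤
      a ^ (1 - θ) * b ^ θ * ‖x‖ * ‖y‖ := by
  classical
  let l : Fin n → ℝ := fun i => Real.log (d i)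
  have hl : ∀ i (t : ℝ), ((d i ^ t : ℝ) : ℂ) = exp ((t : ℂ) * (l i : ℂ)) := by
    intro i t
    rw [Real.rpow_def_of_pos (hd i), Complex.ofReal_exp]
    congr 1
    push_cast
    ring
  let U : ℝ → EuclideanSpace ℂ (Fin n) → EuclideanSpace ℂ (Fin n) := fun s v =>
    WithLp.toLp 2 (fun i => exp ((s : ℂ) * (l i : ℂ) * I) * v i)
  have hU : ∀ s v, ‖U s v‖ = ‖v‖ := by
    intro s v
    rw [EuclideanSpace.norm_eq, EuclideanSpace.norm_eq]
    congr 1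
    refine Finset.sum_congr rfl fun i _ => ?_
    show ‖exp ((s : ℂ) * (l i : ℂ) * I) * v i‖ ^ 2 = _
    rw [norm_mul]
    have : ‖exp ((s : ℂ) * (l i : ℂ) * I)‖ = 1 := by
      have h := Complex.norm_exp_ofReal_mul_I (s * l i)
      push_cast at h
      exact h
    rw [this, one_mul]
  let F : ℂ → ℂ := fun z => bil (fun i j => exp (z * (l i : ℂ)) * R i j * exp (-(z * (l j : ℂ)))) x y
  have hF : ∀ (t s : ℝ), F ((t : ℂ) + (s : ℂ) * I) =
      bil (fun i j => ((d i ^ t : ℝ) : ℂ) * R i j * ((d j ^ t : ℝ) : ℂ)⁻¹) (U (-s) x) (U s y) := by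
    intro t s
    simp only [F, bil]
    refine Finset.sum_congr rfl fun i _ => Finset.sum_congr rfl fun j _ => ?_
    show _ = (exp ((s : ℂ) * (l i : ℂ) * I) * y i) * _ *
      (exp (((-s : ℝ) : ℂ) * (l j : ℂ) * I) * x j)
    rw [hl, hl, ← Complex.exp_neg]
    have e1 : exp (((t : ℂ) + (s : ℂ) * I) * (l i : ℂ)) =
        exp ((t : ℂ) * (l i : ℂ)) * exp ((s : ℂ) * (l i : ℂ) * I) := by
      rw [← Complex.exp_add]; congr 1; ring
    have e2 : exp (-(((t : ℂ) + (s : ℂ) * I) * (l j : ℂ))) =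
        exp (-((t : ℂ) * (l j : ℂ))) * exp (((-s : ℝ) : ℂ) * (l j : ℂ) * I) := by
      rw [← Complex.exp_add]; congr 1; push_cast; ring
    rw [e1, e2]
    ring
  have hdiff : Differentiable ℂ F := by
    simp only [F, bil]
    fun_prop
  have hbound : ∀ z ∈ verticalClosedStrip 0 1, ‖F z‖ ≤
      ∑ i, ∑ j, ‖y i‖ * (Real.exp |l i| * ‖R i j‖ * Real.exp |l j|) * ‖x j‖ := by
    intro z hz
    have hz' : 0 ≤ z.re ∧ z.re ≤ 1 := hz
    simp only [F, bil]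
    refine (norm_sum_le _ _).trans (Finset.sum_le_sum fun i _ => ?_)
    refine (norm_sum_le _ _).trans (Finset.sum_le_sum fun j _ => ?_)
    rw [norm_mul, norm_mul, norm_mul, norm_mul, Complex.norm_exp, Complex.norm_exp]
    have h3 : ∀ r : ℝ, z.re * r ≤ |r| := by
      intro r
      calc z.re * r ≤ |z.re * r| := le_abs_self _
        _ = |z.re| * |r| := abs_mul _ _
        _ ≤ 1 * |r| := by
          refine mul_le_mul_of_nonneg_right ?_ (abs_nonneg _)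
          rw [abs_of_nonneg hz'.1]
          exact hz'.2
        _ = |r| := one_mul _
    have h4 : (z * (l i : ℂ)).re ≤ |l i| := by
      rw [Complex.re_mul_ofReal]
      exact h3 _
    have h5 : (-(z * (l j : ℂ))).re ≤ |l j| := by
      rw [Complex.neg_re, Complex.re_mul_ofReal]
      have := h3 (-(l j))
      rw [abs_neg] at this
      linarith
    gcongr
  have hbdd : BddAbove ((norm ∘ F) '' verticalClosedStrip 0 1) := by
    refine ⟨∑ i, ∑ j, ‖y i‖ * (Real.exp |l i| * ‖R i j‖ * Real.exp |l j|) * ‖x j‖, ?_⟩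
    rintro _ ⟨z, hz, rfl⟩
    exact hbound z hz
  have hA : ∀ z ∈ re ⁻¹' {(0 : ℝ)}, ‖F z‖ ≤ a * ‖x‖ * ‖y‖ := by
    intro z hz
    have hz' : z.re = 0 := hz
    have hzz : z = ((0 : ℝ) : ℂ) + (z.im : ℂ) * I := by
      conv_lhs => rw [← Complex.re_add_im z, hz']
    rw [hzz, hF]
    have := ha (U (-z.im) x) (U z.im y)
    rw [hU, hU] at this
    simpa using this
  have hB : ∀ z ∈ re ⁻¹' {(1 : ℝ)}, ‖F z‖ ≤ b * ‖x‖ * ‖y‖ := by
    intro z hz
    have hz' : z.re = 1 := hz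
    have hzz : z = ((1 : ℝ) : ℂ) + (z.im : ℂ) * I := by
      conv_lhs => rw [← Complex.re_add_im z, hz']
    rw [hzz, hF]
    have := hb (U (-z.im) x) (U z.im y)
    rw [hU, hU] at this
    simpa using this
  have hmain := norm_le_interp_of_mem_verticalClosedStrip₀₁' F (z := (θ : ℂ))
    (show (θ : ℂ) ∈ verticalClosedStrip 0 1 from ⟨by simpa using h0, by simpa using h1⟩)
    hdiff.diffContOnCl hbdd hA hB
  rw [Complex.ofReal_re] at hmain
  have hFθ : F (θ : ℂ) = bil (fun i j => ((d i ^ θ : ℝ) : ℂ) * R i j * ((d j ^ θ : ℝ) : ℂ)⁻¹) x y := by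
    have h6 := hF θ 0
    have h7 : ∀ v, U 0 v = v := by
      intro v
      ext i
      show exp (((0 : ℝ) : ℂ) * (l i : ℂ) * I) * v i = v i
      simp
    rw [neg_zero, h7, h7] at h6
    rw [← h6]
    simp
  rw [← hFθ]
  refine hmain.trans (le_of_eq ?_)
  have hx := norm_nonneg x
  have hy := norm_nonneg y
  have hxy : 0 ≤ ‖x‖ * ‖y‖ := mul_nonneg hx hy
  rw [mul_assoc a, mul_assoc b, Real.mul_rpow ha0 hxy, Real.mul_rpow hb0 hxy]
  have h8 : (‖x‖ * ‖y‖) ^ (1 - θ) * (‖x‖ * ‖y‖) ^ θ = ‖x‖ * ‖y‖ := by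
    rw [← Real.rpow_add_of_nonneg hxy (by linarith) h0]
    simp
  calc a ^ (1 - θ) * (‖x‖ * ‖y‖) ^ (1 - θ) * (b ^ θ * (‖x‖ * ‖y‖) ^ θ)
      = a ^ (1 - θ) * b ^ θ * ((‖x‖ * ‖y‖) ^ (1 - θ) * (‖x‖ * ‖y‖) ^ θ) := by ring
    _ = a ^ (1 - θ) * b ^ θ * ‖x‖ * ‖y‖ := by rw [h8]; ring

end Pool.Agent.H56.KR
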